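import Mathlib

set_option autoImplicit false

namespace Pool.Agent.H.MP_60dc17_co

open Set Metric MeasureTheory

/-- the Euclidean plane -/
abbrev E := EuclideanSpace ℝ (Fin 2)

/-- closed unit square of the grid with lower left corner `c` -/
def cell (c : ℤ × ℤ) : Set E :=
  {p | (c.1 : ℝ) ≤ p 0 ∧ p 0 ≤ c.1 + 1 ∧ (c.2 : ℝ) ≤ p 1 ∧ p 1 ≤ c.2 + 1}

/-- the union of a finite set of grid squares -/
def reg (s : Finset (ℤ × ℤ)) : Set E := ⋃ c ∈ s, cell c

/-- a set of grid squares is edge-connected -/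
def Conn (s : Set (ℤ × ℤ)) : Prop :=
  ∀ a ∈ s, ∀ b ∈ s,
    Relation.ReflTransGen (fun c d => c ∈ s ∧ d ∈ s ∧ |c.1 - d.1| + |c.2 - d.2| = 1) a b

/-- `n` squares, edge-connected, with edge-connected complement (no holes, no pinch points) -/
def IsOmino (n : ℕ) (s : Finset (ℤ × ℤ)) : Prop :=
  s.card = n ∧ Conn (s : Set (ℤ × ℤ)) ∧ Conn (s : Set (ℤ × ℤ))ᶜ

/-- congruence, reflections allowed -/
def Congr (A B : Set E) : Prop := ∃ f : E ≃ᵢ E, f '' A = B

/-- a countable family of closed sets covering the plane with disjoint interiors -/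
def Tiling (T : Set (Set E)) : Prop :=
  T.Countable ∧ (∀ A ∈ T, IsClosed A) ∧ ⋃₀ T = univ ∧
    T.Pairwise fun A B => Disjoint (interior A) (interior B)

def cbox (a b c d : ℝ) : Set E := {p | a ≤ p 0 ∧ p 0 ≤ b ∧ c ≤ p 1 ∧ p 1 ≤ d}
def obox (a b c d : ℝ) : Set E := {p | a < p 0 ∧ p 0 < b ∧ c < p 1 ∧ p 1 < d}

lemma vol_c (a b c d : ℝ) :
    volume (cbox a b c d) = ENNReal.ofReal (b - a) * ENNReal.ofReal (d - c) := by
  have : cbox a b c d = WithLp.ofLp ⁻¹' Icc ![a, c] ![b, d] := by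
    ext p; simp [cbox, Pi.le_def, Fin.forall_fin_two]; tauto
  rw [this, (PiLp.volume_preserving_ofLp _).measure_preimage measurableSet_Icc.nullMeasurableSet,
    Real.volume_Icc_pi]
  simp

lemma vol_o (a b c d : ℝ) :
    volume (obox a b c d) = ENNReal.ofReal (b - a) * ENNReal.ofReal (d - c) := by
  have : obox a b c d = WithLp.ofLp ⁻¹' (pi univ fun i => Ioo (![a, c] i) (![b, d] i)) := by
    ext p; simp [obox, Fin.forall_fin_two]; tauto
  rw [this, (PiLp.volume_preserving_ofLp _).measure_preimage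
    (MeasurableSet.univ_pi fun _ => measurableSet_Ioo).nullMeasurableSet, Real.volume_pi_Ioo]
  simp

lemma open_o (a b c d : ℝ) : IsOpen (obox a b c d) := by
  have h : ∀ i, Continuous fun p : E => p i := fun i => by fun_prop
  exact (isOpen_lt continuous_const (h 0)).inter <| (isOpen_lt (h 0) continuous_const).inter <|
    (isOpen_lt continuous_const (h 1)).inter (isOpen_lt (h 1) continuous_const)

lemma vol_img (f : E ≃ᵢ E) (A : Set E) : volume (f '' A) = volume A := by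
  have h : MeasurePreserving f.symm := by
    have h1 := (measurePreserving_add_right volume (f.symm 0)).comp
      f.symm.toRealLinearIsometryEquiv.measurePreserving
    have e : (fun x => x + f.symm 0) ∘ f.symm.toRealLinearIsometryEquiv = f.symm := by
      funext x; simp [IsometryEquiv.toRealLinearIsometryEquiv_apply]
    rwa [e] at h1
  rw [← f.preimage_symm]
  exact h.measure_preimage_emb f.symm.toHomeomorph.measurableEmbedding A

def oc (c : ℤ × ℤ) : Set E := obox c.1 (c.1 + 1) c.2 (c.2 + 1)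

lemma oc_sub {c : ℤ × ℤ} {s : Finset (ℤ × ℤ)} (h : c ∈ s) : oc c ⊆ reg s := fun _ hp =>
  mem_biUnion h ⟨hp.1.le, hp.2.1.le, hp.2.2.1.le, hp.2.2.2.le⟩

lemma vol_le (s : Finset (ℤ × ℤ)) : volume (reg s) ≤ s.card := by
  refine (measure_biUnion_finset_le s cell).trans ?_
  have : ∀ c, volume (cell c) = 1 := fun c => (vol_c _ _ _ _).trans (by simp)
  simp [this]

lemma vol_ge (s : Finset (ℤ × ℤ)) : volume (⋃ c ∈ s, oc c) = s.card := by
  rw [measure_biUnion_finset (f := oc) _ fun c _ => (open_o _ _ _ _).measurableSet]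
  · have : ∀ c, volume (oc c) = 1 := fun c => (vol_o _ _ _ _).trans (by simp)
    simp [this]
  · intro c _ d _ h
    rw [Function.onFun, disjoint_left]
    rintro p ⟨a1, a2, a3, a4⟩ ⟨b1, b2, b3, b4⟩
    have e1 : c.1 < d.1 + 1 := by exact_mod_cast a1.trans b2
    have e2 : d.1 < c.1 + 1 := by exact_mod_cast b1.trans a2
    have e3 : c.2 < d.2 + 1 := by exact_mod_cast a3.trans b4
    have e4 : d.2 < c.2 + 1 := by exact_mod_cast b3.trans a4
    exact h (Prod.ext (by omega) (by omega))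

def pt (x y : ℝ) : E := !₂[x, y]

@[simp] lemma pt0 (x y : ℝ) : pt x y 0 = x := rfl
@[simp] lemma pt1 (x y : ℝ) : pt x y 1 = y := rfl

noncomputable def ctr (c : ℤ × ℤ) : E := pt (c.1 + 1 / 2) (c.2 + 1 / 2)

lemma dsq (p q : E) : dist p q ^ 2 = (p 0 - q 0) ^ 2 + (p 1 - q 1) ^ 2 := by
  rw [EuclideanSpace.dist_sq_eq, Fin.sum_univ_two, Real.dist_eq, Real.dist_eq, sq_abs, sq_abs]

lemma co {p q : E} {r : ℝ} (h : dist p q < r) (i : Fin 2) : q i - r < p i ∧ p i < q i + r := by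
  have := (PiLp.dist_apply_le p q i).trans_lt h
  rw [Real.dist_eq, abs_lt] at this
  constructor <;> linarith [this.1, this.2]

lemma near {c : ℤ × ℤ} {p : E} (h : p ∈ cell c) : dist p (ctr c) < 3 / 4 := by
  obtain ⟨a1, a2, a3, a4⟩ := h
  have := dsq p (ctr c)
  refine lt_of_pow_lt_pow_left₀ 2 (by norm_num) ?_
  rw [this]
  simp only [ctr, pt0, pt1]
  nlinarith

lemma reg_cl (s : Finset (ℤ × ℤ)) : reg s ⊆ closure (interior (reg s)) := by
  intro p hp
  obtain ⟨c, hc, hp⟩ := mem_iUnion₂.1 hp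
  have h1 : Convex ℝ (cell c) := by
    rintro x ⟨a1, a2, a3, a4⟩ y ⟨b1, b2, b3, b4⟩ a b ha hb hab
    obtain rfl : b = 1 - a := by linarith
    simp only [cell, mem_ofPred_eq, PiLp.add_apply, PiLp.smul_apply, smul_eq_mul]
    refine ⟨?_, ?_, ?_, ?_⟩ <;> nlinarith
  have h2 : (interior (cell c)).Nonempty := ⟨ctr c, interior_maximal (t := oc c)
    (fun p hp => show p ∈ cell c from ⟨hp.1.le, hp.2.1.le, hp.2.2.1.le, hp.2.2.2.le⟩)
    (open_o _ _ _ _) (by simp only [oc, obox, ctr, mem_ofPred_eq, pt0, pt1]; norm_num)⟩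
  refine closure_mono (interior_mono (subset_biUnion_of_mem (u := cell) hc)) ?_
  rw [h1.closure_interior_eq_closure_of_nonempty_interior h2]
  exact subset_closure hp

lemma seg {s : Finset (ℤ × ℤ)} {c d : ℤ × ℤ} (hc : c ∈ s) (hd : d ∈ s)
    (h : |c.1 - d.1| + |c.2 - d.2| = 1) {t : ℝ} (h0 : 0 ≤ t) (h1 : t ≤ 1) :
    ball (ctr c + t • (ctr d - ctr c)) (1 / 2) ⊆ reg s := by
  intro p hp
  have a := co hp 0
  have b := co hp 1
  simp only [ctr, PiLp.add_apply, PiLp.smul_apply, PiLp.sub_apply, pt0, pt1, smul_eq_mul] at a b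
  have key : p ∈ cell c ∨ p ∈ cell d := by
    obtain ⟨c1, c2⟩ := c
    obtain ⟨d1, d2⟩ := d
    have : (d1 = c1 + 1 ∧ d2 = c2) ∨ (d1 = c1 - 1 ∧ d2 = c2) ∨ (d1 = c1 ∧ d2 = c2 + 1) ∨
        (d1 = c1 ∧ d2 = c2 - 1) := by
      simp only [Int.abs_eq_natAbs] at h; omega
    simp only [cell, mem_ofPred_eq]
    obtain ⟨a1, a2⟩ := a
    obtain ⟨b1, b2⟩ := b
    rcases this with ⟨rfl, rfl⟩ | ⟨rfl, rfl⟩ | ⟨rfl, rfl⟩ | ⟨rfl, rfl⟩ <;> push_cast at *
    · rcases le_total (p 0) (c1 + 1) with e | e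
      · left; refine ⟨?_, ?_, ?_, ?_⟩ <;> linarith
      · right; refine ⟨?_, ?_, ?_, ?_⟩ <;> linarith
    · rcases le_total (p 0) c1 with e | e
      · right; refine ⟨?_, ?_, ?_, ?_⟩ <;> linarith
      · left; refine ⟨?_, ?_, ?_, ?_⟩ <;> linarith
    · rcases le_total (p 1) (c2 + 1) with e | e
      · left; refine ⟨?_, ?_, ?_, ?_⟩ <;> linarith
      · right; refine ⟨?_, ?_, ?_, ?_⟩ <;> linarith
    · rcases le_total (p 1) c2 with e | e
      · right; refine ⟨?_, ?_, ?_, ?_⟩ <;> linarith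
      · left; refine ⟨?_, ?_, ?_, ?_⟩ <;> linarith
  exact key.elim (mem_biUnion hc) (mem_biUnion hd)

lemma cross {s : Finset (ℤ × ℤ)} (hs : Conn (s : Set (ℤ × ℤ))) {g : E → ℝ} (hg : Continuous g)
    {c d : ℤ × ℤ} (hc : c ∈ s) (hd : d ∈ s) (h1 : 0 < g (ctr c)) (h2 : g (ctr d) ≤ 0) :
    ∃ q, ball q (1 / 2) ⊆ reg s ∧ g q = 0 := by
  have h := hs c hc d hd
  clear hd
  induction h with
  | refl => linarith
  | @tail a b _ h ih =>
    by_cases e : g (ctr a) ≤ 0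
    · exact ih e
    · have hk : ContinuousOn (fun t : ℝ => g (ctr a + t • (ctr b - ctr a))) (Icc 0 1) := by
        fun_prop
      obtain ⟨t, ht, h3⟩ := intermediate_value_Icc' zero_le_one hk
        (show (0 : ℝ) ∈ _ from ⟨by simpa using h2, by simpa using (not_le.1 e).le⟩)
      exact ⟨_, seg h.1 h.2.1 h.2.2 ht.1 ht.2, h3⟩

lemma esc {s : Finset (ℤ × ℤ)} (hs : Conn (s : Set (ℤ × ℤ))) (f : E ≃ᵢ E) {x₁ x₂ y₁ y₂ : ℝ}
    {c d : ℤ × ℤ} (hc : c ∈ s) (hd : d ∈ s) (h1 : f (ctr c) ∈ obox x₁ x₂ y₁ y₂)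
    (h2 : f (ctr d) ∉ obox x₁ x₂ y₁ y₂) :
    ∃ z, ball z (1 / 2) ⊆ f '' reg s ∧ z ∈ cbox x₁ x₂ y₁ y₂ ∧
      (z 0 = x₁ ∨ z 0 = x₂ ∨ z 1 = y₁ ∨ z 1 = y₂) := by
  have := f.continuous
  obtain ⟨q, h3, h4⟩ := cross hs (g := fun p => min (min (f p 0 - x₁) (x₂ - f p 0))
    (min (f p 1 - y₁) (y₂ - f p 1))) (by fun_prop) hc hd (by simpa [obox, and_assoc] using h1)
    (by rw [← not_lt]; simpa [obox, and_assoc] using h2)
  refine ⟨f q, by rw [← f.image_ball]; exact image_mono h3, ?_, ?_⟩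
  · have := h4.ge
    simpa [cbox, and_assoc] using this
  · simp only [min_eq_iff] at h4
    rcases h4 with ⟨⟨h, -⟩ | ⟨h, -⟩, -⟩ | ⟨⟨h, -⟩ | ⟨h, -⟩, -⟩
    exacts [Or.inl (by linarith), Or.inr (Or.inl (by linarith)),
      Or.inr (Or.inr (Or.inl (by linarith))), Or.inr (Or.inr (Or.inr (by linarith)))]

end Pool.Agent.H.MP_60dc17_co
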