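import Pool.Agent.H.MP_60dc17_co.A

set_option autoImplicit false

namespace Pool.Agent.H.MP_60dc17_co

open Set Metric MeasureTheory

abbrev RT (s : Set (ℤ × ℤ)) :=
  Relation.ReflTransGen (fun c d : ℤ × ℤ => c ∈ s ∧ d ∈ s ∧ |c.1 - d.1| + |c.2 - d.2| = 1)

lemma RT_symm {s : Set (ℤ × ℤ)} {a b : ℤ × ℤ} (h : RT s a b) : RT s b a := by
  induction h with
  | refl => exact .refl
  | tail _ h ih => exact .head ⟨h.2.1, h.1, by rw [abs_sub_comm, abs_sub_comm (Prod.snd _)]; exact h.2.2⟩ ih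

lemma hl {s : Set (ℤ × ℤ)} (y x x' : ℤ)
    (h : ∀ u, (x ≤ u ∧ u ≤ x') ∨ (x' ≤ u ∧ u ≤ x) → (u, y) ∈ s) : RT s (x, y) (x', y) := by
  wlog e : x ≤ x' generalizing x x'
  · exact RT_symm (this x' x (fun u hu => h u hu.symm) (by omega))
  induction x', e using Int.leInduction with
  | base => exact .refl
  | succ n hn ih =>
    exact (ih fun u hu => h u (by omega)).tail ⟨h _ (by omega), h _ (by omega), by simp⟩

lemma vl {s : Set (ℤ × ℤ)} (x y y' : ℤ)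
    (h : ∀ u, (y ≤ u ∧ u ≤ y') ∨ (y' ≤ u ∧ u ≤ y) → (x, u) ∈ s) : RT s (x, y) (x, y') := by
  wlog e : y ≤ y' generalizing y y'
  · exact RT_symm (this y' y (fun u hu => h u hu.symm) (by omega))
  induction y', e using Int.leInduction with
  | base => exact .refl
  | succ n hn ih =>
    exact (ih fun u hu => h u (by omega)).tail ⟨h _ (by omega), h _ (by omega), by simp⟩

/-- two rooms whose doors open on one common square -/
noncomputable def T (b e : ℕ) : Finset (ℤ × ℤ) :=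
  Finset.Icc (-6 - e : ℤ) 6 ×ˢ {(-b : ℤ)} ∪ ({-6} ×ˢ Finset.Icc (1 - b : ℤ) 0 ∪
  ({6} ×ˢ Finset.Icc (1 - b : ℤ) 0 ∪ ({0} ×ˢ Finset.Icc (1 - b : ℤ) (-1) ∪
  (Finset.Icc (-6) (-1) ×ˢ {1} ∪ Finset.Icc 1 6 ×ˢ {1}))))

lemma memT {b e : ℕ} {x y : ℤ} : (x, y) ∈ T b e ↔ (-6 - e ≤ x ∧ x ≤ 6 ∧ y = -b) ∨
    (x = -6 ∧ 1 - b ≤ y ∧ y ≤ 0) ∨ (x = 6 ∧ 1 - b ≤ y ∧ y ≤ 0) ∨ (x = 0 ∧ 1 - b ≤ y ∧ y ≤ -1) ∨
    (-6 ≤ x ∧ x ≤ -1 ∧ y = 1) ∨ (1 ≤ x ∧ x ≤ 6 ∧ y = 1) := by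
  simp only [T, Finset.mem_union, Finset.mem_product, Finset.mem_Icc, Finset.mem_singleton,
    and_assoc]

lemma cardT {b e : ℕ} (hb : 1 ≤ b) : (T b e).card = 24 + 3 * b + e := by
  unfold T
  iterate 5 rw [Finset.card_union_of_disjoint]
  · simp only [Finset.card_product, Int.card_Icc, Finset.card_singleton]; omega
  all_goals
    rw [Finset.disjoint_left]
    rintro ⟨x, y⟩
    simp only [Finset.mem_union, Finset.mem_product, Finset.mem_Icc, Finset.mem_singleton]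
    omega

lemma omT {b e : ℕ} (hb : 1 ≤ b) : IsOmino (24 + 3 * b + e) (T b e) := by
  refine ⟨cardT hb, ?_, ?_⟩
  · have : ∀ a ∈ (T b e : Set (ℤ × ℤ)), RT (T b e) a (0, -b) := by
      rintro ⟨x, y⟩ h
      have V : ∀ x y : ℤ, (x = -6 ∨ x = 6) ∧ -b ≤ y ∧ y ≤ 1 ∨ x = 0 ∧ -b ≤ y ∧ y ≤ -1 →
          RT (T b e) (x, y) (0, -b) := fun x y h =>
        (vl x y (-b) fun u hu => memT.2 (by omega)).trans
          (hl _ _ _ fun u hu => memT.2 (by omega))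
      rcases memT.1 h with h | h | h | h | h | h
      · rw [h.2.2]; exact hl _ _ _ fun u hu => memT.2 (by omega)
      · exact V _ _ (by omega)
      · exact V _ _ (by omega)
      · exact V _ _ (by omega)
      · exact (hl y x (-6) fun u hu => memT.2 (by omega)).trans (V _ _ (by omega))
      · exact (hl y x 6 fun u hu => memT.2 (by omega)).trans (V _ _ (by omega))
    exact fun a ha c hc => (this a ha).trans (RT_symm (this c hc))
  · have : ∀ a ∈ (T b e : Set (ℤ × ℤ))ᶜ, RT (T b e)ᶜ a (0, 2) := by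
      rintro ⟨x, y⟩ h
      have m : ∀ x y : ℤ, (x, y) ∈ (T b e : Set (ℤ × ℤ))ᶜ ↔ ¬ _ := fun x y => not_congr memT
      have V : ∀ x y : ℤ, 2 ≤ y ∨ 7 ≤ x ∨ x < -6 - e ∨ (x < -6 ∧ -b < y) ∨ (x = 0 ∧ 0 ≤ y) →
          RT (T b e)ᶜ (x, y) (0, 2) := fun x y h =>
        (vl x y 2 fun u hu => (m _ _).2 (by omega)).trans
          (hl _ _ _ fun u hu => (m _ _).2 (by omega))
      rw [m] at h
      by_cases h1 : y < -b
      · exact (hl y x 7 fun u hu => (m _ _).2 (by omega)).trans (V _ _ (by omega))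
      by_cases h2 : -6 < x ∧ x < 6 ∧ x ≠ 0 ∧ y ≤ 0
      · exact (vl x y 0 fun u hu => (m _ _).2 (by omega)).trans
          ((hl 0 x 0 fun u hu => (m _ _).2 (by omega)).trans (V _ _ (by omega)))
      · exact V _ _ (by omega)
    exact fun a ha c hc => (this a ha).trans (RT_symm (this c hc))

lemma fl {a b : ℤ} {x : ℝ} (h : a < b) (h1 : (a : ℝ) ≤ x) (h2 : x ≤ b) :
    ∃ j : ℤ, a ≤ j ∧ j < b ∧ (j : ℝ) ≤ x ∧ x ≤ j + 1 := by
  rcases h2.eq_or_lt with rfl | h2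
  · exact ⟨b - 1, by omega, by omega, by simp, by simp⟩
  · exact ⟨⌊x⌋, Int.le_floor.2 h1, Int.floor_lt.2 h2, Int.floor_le x, (Int.lt_floor_add_one x).le⟩

lemma box {s : Finset (ℤ × ℤ)} (a b c d : ℤ) (h1 : a < b) (h2 : c < d)
    (h : ∀ x y, a ≤ x → x < b → c ≤ y → y < d → (x, y) ∈ s) : cbox a b c d ⊆ reg s := by
  rintro p ⟨a1, a2, a3, a4⟩
  obtain ⟨i, i1, i2, i3, i4⟩ := fl h1 a1 a2
  obtain ⟨j, j1, j2, j3, j4⟩ := fl h2 a3 a4
  exact mem_biUnion (h i j i1 i2 j1 j2) ⟨i3, i4, j3, j4⟩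

lemma outT {b e : ℕ} (hb : 1 ≤ b) {p : E} (h : p ∉ reg (T b e)) (h1 : p ∈ cbox (-6) 7 (-b) 2) :
    -5 < p 0 ∧ p 0 < 6 ∧ 1 - b < p 1 ∧ (p 0 ≤ 0 ∨ 1 ≤ p 0 → p 1 < 1) ∧ (0 ≤ p 0 → p 0 ≤ 1 → 0 < p 1) := by
  obtain ⟨a1, a2, a3, a4⟩ := h1
  have b1 := mt (@box _ (-6) 7 (-b) (1 - b) (by omega) (by omega)
    (fun x y _ _ _ _ => memT.2 (by omega)) p) h
  have b2 := mt (@box _ (-6) (-5) (-b) 2 (by omega) (by omega)
    (fun x y _ _ _ _ => memT.2 (by omega)) p) h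
  have b3 := mt (@box _ 6 7 (-b) 2 (by omega) (by omega)
    (fun x y _ _ _ _ => memT.2 (by omega)) p) h
  have b4 := mt (@box _ 0 1 (-b) 0 (by omega) (by omega)
    (fun x y _ _ _ _ => memT.2 (by omega)) p) h
  have b5 := mt (@box _ (-6) 0 1 2 (by omega) (by omega)
    (fun x y _ _ _ _ => memT.2 (by omega)) p) h
  have b6 := mt (@box _ 1 7 1 2 (by omega) (by omega)
    (fun x y _ _ _ _ => memT.2 (by omega)) p) h
  simp only [cbox, mem_ofPred_eq] at b1 b2 b3 b4 b5 b6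
  push_cast at *
  simp only [a1, a2, a3, a4, true_and, and_true, not_and, not_le] at b1 b2 b3 b4 b5 b6
  refine ⟨b2, b3, b1, ?_, fun c1 c2 => ?_⟩
  · rintro (c | c)
    exacts [b5 c, b6 c]
  · exact b4 c1 c2

lemma inT {b e : ℕ} {p : E} (h : p ∈ reg (T b e)) :
    p 1 ≤ 1 - b ∨ p 0 ≤ -5 ∨ 6 ≤ p 0 ∨ (0 ≤ p 0 ∧ p 0 ≤ 1) ∨ 1 ≤ p 1 := by
  obtain ⟨⟨x, y⟩, hc, a1, a2, a3, a4⟩ := mem_iUnion₂.1 h
  have : y = -b ∨ x = -6 ∨ x = 6 ∨ x = 0 ∨ y = 1 := by have := memT.1 hc; omega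
  rcases this with rfl | rfl | rfl | rfl | rfl <;> push_cast at *
  · left; linarith
  · right; left; linarith
  · right; right; left; linarith
  · right; right; right; left; exact ⟨a1, by linarith⟩
  · right; right; right; right; linarith

section tile
variable {b e : ℕ} {s : Finset (ℤ × ℤ)} {f : E ≃ᵢ E}

lemma free {S : Set E} (hd : Disjoint (interior S) (interior (reg (T b e)))) {U : Set E}
    (hU : IsOpen U) (h : U ⊆ S) : Disjoint U (reg (T b e)) :=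
  ((hd.mono_left (interior_maximal h hU)).closure_right hU).mono_right (reg_cl _)

lemma small (hb : 1 ≤ b) (hn : 6 * b + 2 < s.card)
    (hd : Disjoint (interior (f '' reg s)) (interior (reg (T b e)))) {u : ℝ} (hu : u = -5 ∨ u = 0) :
    ∃ d ∈ s, f (ctr d) ∉ obox u (u + 6) (1 - b) 1 := by
  by_contra hc
  push Not at hc
  have h1 : IsOpen (f '' ⋃ c ∈ s, oc c) :=
    f.toHomeomorph.isOpenMap _ (isOpen_biUnion fun c _ => open_o _ _ _ _)
  have h2 := free hd h1 (image_mono (iUnion₂_subset fun c hc => oc_sub hc))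
  have h3 : f '' (⋃ c ∈ s, oc c) ⊆ cbox (-1 + u * (4 / 5)) 0 (1 - b) 1 ∪ cbox 0 1 0 2 ∪
      cbox 1 (6 + u * (4 / 5)) (1 - b) 1 := by
    intro p hp
    have h4 := disjoint_left.1 h2 hp
    obtain ⟨q, hq, rfl⟩ := hp
    obtain ⟨c, hc', hq⟩ := mem_iUnion₂.1 hq
    have h5 := near (c := c) (p := q) ⟨hq.1.le, hq.2.1.le, hq.2.2.1.le, hq.2.2.2.le⟩
    rw [← f.dist_eq] at h5
    obtain ⟨a1, a2⟩ := co h5 0
    obtain ⟨a3, a4⟩ := co h5 1
    obtain ⟨b1, b2, b3, b4⟩ := hc c hc'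
    obtain ⟨c1, c2, c3, c4, c5⟩ := outT hb h4 ⟨by rcases hu with rfl | rfl <;> linarith,
      by rcases hu with rfl | rfl <;> linarith, by linarith, by linarith⟩
    rcases le_total (f q 0) 0 with e1 | e1
    · exact Or.inl (Or.inl ⟨by rcases hu with rfl | rfl <;> linarith, e1, c3.le,
        (c4 (Or.inl e1)).le⟩)
    rcases le_total (f q 0) 1 with e2 | e2
    · exact Or.inl (Or.inr ⟨e1, e2, (c5 e1 e2).le, by linarith⟩)
    · exact Or.inr ⟨e2, by rcases hu with rfl | rfl <;> linarith, c3.le, (c4 (Or.inr e2)).le⟩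
  have h4 := (measure_mono (μ := volume) h3).trans ((measure_union_le _ _).trans
    (add_le_add (measure_union_le _ _) le_rfl))
  have hb' : (0 : ℝ) ≤ b := by positivity
  have u1 : (0 : ℝ) ≤ 0 - (-1 + u * (4 / 5)) := by rcases hu with rfl | rfl <;> norm_num
  have u2 : (0 : ℝ) ≤ 6 + u * (4 / 5) - 1 := by rcases hu with rfl | rfl <;> norm_num
  rw [vol_img, vol_ge, vol_c, vol_c, vol_c, ← ENNReal.ofReal_mul u1, ← ENNReal.ofReal_mul u2,
    ← ENNReal.ofReal_mul (by norm_num), ← ENNReal.ofReal_add (by nlinarith) (by norm_num),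
    ← ENNReal.ofReal_add (by nlinarith) (by nlinarith), ← ENNReal.ofReal_natCast,
    ENNReal.ofReal_le_ofReal_iff (by nlinarith)] at h4
  have : (6 * b + 2 : ℝ) < s.card := by exact_mod_cast hn
  linarith

lemma gate {S : Set E} (hb : 1 ≤ b) (hd : Disjoint (interior S) (interior (reg (T b e)))) {z : E}
    (hz : ball z (1 / 2) ⊆ S) (h : z ∈ cbox (-5) 6 (1 - b) 1) :
    -5 < z 0 ∧ z 0 < 6 ∧ 1 - b < z 1 ∧ (z 0 = 0 → z = pt 0 (1 / 2)) ∧
      (z 0 = 1 → z = pt 1 (1 / 2)) ∧ (z 1 = 1 → z = pt (1 / 2) 1) := by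
  have h1 := disjoint_left.1 (free hd isOpen_ball hz)
  obtain ⟨a1, a2, a3, a4⟩ := h
  obtain ⟨c1, c2, c3, c4, c5⟩ := outT hb (h1 (mem_ball_self (by norm_num)))
    ⟨by linarith, by linarith, by linarith, by linarith⟩
  have k : ∀ x y : ℤ, (x = 0 ∨ x = 1) → (y = 0 ∨ y = 1) →
      1 / 4 ≤ (x - z 0) ^ 2 + (y - z 1) ^ 2 := by
    intro x y hx hy
    have : pt x y ∉ ball z (1 / 2) := fun h => h1 h (by
      have hb' : (1 : ℝ) ≤ b := by exact_mod_cast hb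
      rcases hy with rfl | rfl
      · refine box 0 1 (-b) 0 (by omega) (by omega) (fun x y _ _ _ _ => memT.2 (by omega)) ?_
        rcases hx with rfl | rfl <;> simp [cbox]
      · rcases hx with rfl | rfl
        · exact box (-1) 0 1 2 (by omega) (by omega) (fun x y _ _ _ _ => memT.2 (by omega))
            (by simp [cbox])
        · exact box 1 2 1 2 (by omega) (by omega) (fun x y _ _ _ _ => memT.2 (by omega))
            (by simp [cbox]))
    rw [mem_ball, not_lt] at this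
    have h2 := dsq (pt x y) z
    simp only [pt0, pt1] at h2
    nlinarith
  have k1 := k 0 0 (by simp) (by simp)
  have k2 := k 0 1 (by simp) (by simp)
  have k3 := k 1 0 (by simp) (by simp)
  have k4 := k 1 1 (by simp) (by simp)
  push_cast at k1 k2 k3 k4
  have ex : ∀ x y, z 0 = x → z 1 = y → z = pt x y := fun x y h1 h2 => by
    ext i; fin_cases i <;> simp [h1, h2]
  refine ⟨c1, c2, c3, fun h => ex _ _ h ?_, fun h => ex _ _ h ?_, fun h => ex _ _ ?_ h⟩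
  · have := c4 (Or.inl h.le)
    have := c5 h.ge (by linarith)
    rw [h] at k1 k2
    apply le_antisymm <;> nlinarith
  · have := c4 (Or.inr h.ge)
    have := c5 (by linarith) h.le
    rw [h] at k3 k4
    apply le_antisymm <;> nlinarith
  · have e1 : 0 < z 0 := not_le.1 fun e => by linarith [c4 (Or.inl e)]
    have e2 : z 0 < 1 := not_le.1 fun e => by linarith [c4 (Or.inr e)]
    rw [h] at k2 k4
    apply le_antisymm <;> nlinarith

lemma room (hb : 1 ≤ b) (hn : 6 * b + 2 < s.card) (hs : Conn (s : Set (ℤ × ℤ)))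
    (hd : Disjoint (interior (f '' reg s)) (interior (reg (T b e)))) {p : E} (hp : p ∈ f '' reg s) :
    (p ∈ obox (-5) (-3 / 4) (1 - b) 1 → ball (pt 0 (1 / 2)) (1 / 2) ⊆ f '' reg s ∧
      (ball (pt 1 (1 / 2)) (1 / 2) ⊆ f '' reg s ∨ ball (pt (1 / 2) 1) (1 / 2) ⊆ f '' reg s)) ∧
    (p ∈ obox (7 / 4) 6 (1 - b) 1 → ball (pt 1 (1 / 2)) (1 / 2) ⊆ f '' reg s ∧
      (ball (pt 0 (1 / 2)) (1 / 2) ⊆ f '' reg s ∨ ball (pt (1 / 2) 1) (1 / 2) ⊆ f '' reg s)) := by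
  obtain ⟨q, hq, rfl⟩ := hp
  obtain ⟨c, hc, hq⟩ := mem_iUnion₂.1 hq
  have h5 := near hq
  rw [← f.dist_eq] at h5
  obtain ⟨a1, a2⟩ := co h5 0
  obtain ⟨a3, a4⟩ := co h5 1
  have h0 : f (ctr c) ∉ reg (T b e) := disjoint_left.1 (free hd
    (f.toHomeomorph.isOpenMap _ (open_o _ _ _ _)) (image_mono (oc_sub hc)))
    (mem_image_of_mem _ (by simp only [obox, ctr, mem_ofPred_eq, pt0, pt1]; norm_num))
  constructor
  · rintro ⟨b1, b2, b3, b4⟩
    obtain ⟨c1, c2, c3, c4, -⟩ := outT hb h0 ⟨by linarith, by linarith, by linarith, by linarith⟩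
    have c5 := c4 (Or.inl (by linarith))
    obtain ⟨d, hd1, hd2⟩ := small hb hn hd (Or.inl rfl)
    constructor
    · obtain ⟨z, z1, ⟨z2, z3, z4, z5⟩, z6⟩ := esc hs f (x₂ := 0) hc hd1 ⟨c1, by linarith, c3, c5⟩
        (fun h => hd2 ⟨h.1, by linarith [h.2.1], h.2.2⟩)
      obtain ⟨g1, g2, g3, g4, g5, g6⟩ := gate hb hd z1 ⟨z2, by linarith, z4, z5⟩
      rcases z6 with h | h | h | h
      · linarith
      · rwa [g4 h] at z1
      · linarith
      · rw [g6 h, pt0] at z3; linarith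
    · obtain ⟨z, z1, ⟨z2, z3, z4, z5⟩, z6⟩ := esc hs f hc hd1 ⟨c1, by linarith, c3, c5⟩ hd2
      obtain ⟨g1, g2, g3, g4, g5, g6⟩ := gate hb hd z1 ⟨z2, by linarith, z4, z5⟩
      rcases z6 with h | h | h | h
      · linarith
      · left; rwa [g5 (by linarith)] at z1
      · linarith
      · right; rwa [g6 h] at z1
  · rintro ⟨b1, b2, b3, b4⟩
    obtain ⟨c1, c2, c3, c4, -⟩ := outT hb h0 ⟨by linarith, by linarith, by linarith, by linarith⟩
    have c5 := c4 (Or.inr (by linarith))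
    obtain ⟨d, hd1, hd2⟩ := small hb hn hd (Or.inr rfl)
    constructor
    · obtain ⟨z, z1, ⟨z2, z3, z4, z5⟩, z6⟩ := esc hs f (x₁ := 1) (x₂ := 6) hc hd1
        ⟨by linarith, c2, c3, c5⟩ (fun h => hd2 ⟨by linarith [h.1], by linarith [h.2.1], h.2.2⟩)
      obtain ⟨g1, g2, g3, g4, g5, g6⟩ := gate hb hd z1 ⟨by linarith, z3, z4, z5⟩
      rcases z6 with h | h | h | h
      · rwa [g5 h] at z1
      · linarith
      · linarith
      · rw [g6 h, pt0] at z2; linarith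
    · obtain ⟨z, z1, ⟨z2, z3, z4, z5⟩, z6⟩ := esc hs f hc hd1
        ⟨by linarith, by linarith, c3, c5⟩ hd2
      obtain ⟨g1, g2, g3, g4, g5, g6⟩ := gate hb hd z1 ⟨by linarith, by linarith, z4, z5⟩
      rcases z6 with h | h | h | h
      · left; rwa [g4 h] at z1
      · linarith
      · linarith
      · right; rwa [g6 h] at z1

end tile

lemma core {b e : ℕ} (hb : 1 ≤ b) {n : ℕ} (h1 : 6 * b + 2 < n) (h2 : 2 * n < 17 * b)
    {F : Set (Set E)} (hc : ⋃₀ F = univ)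
    (hp : F.Pairwise fun A B => Disjoint (interior A) (interior B))
    (hF : ∀ A ∈ F, ∃ s : Finset (ℤ × ℤ), s.card = n ∧ Conn (s : Set (ℤ × ℤ)) ∧ Congr (reg s) A) :
    reg (T b e) ∉ F := by
  intro hT
  have un : ∀ A ∈ F, ∀ B ∈ F, ∀ z, ball z (1 / 2) ⊆ A → ball z (1 / 2) ⊆ B → A = B :=
    fun A hA B hB z a b => by_contra fun h => disjoint_left.1 (hp hA hB h)
      (interior_maximal a isOpen_ball (mem_ball_self (by norm_num)))
      (interior_maximal b isOpen_ball (mem_ball_self (by norm_num)))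
  have key : ∀ p ∈ obox (-5) (-3 / 4) (1 - b) 1 ∪ obox (7 / 4) 6 (1 - b) 1, ∃ S ∈ F, p ∈ S ∧
      (p ∈ obox (-5) (-3 / 4) (1 - b) 1 → ball (pt 0 (1 / 2)) (1 / 2) ⊆ S ∧
        (ball (pt 1 (1 / 2)) (1 / 2) ⊆ S ∨ ball (pt (1 / 2) 1) (1 / 2) ⊆ S)) ∧
      (p ∈ obox (7 / 4) 6 (1 - b) 1 → ball (pt 1 (1 / 2)) (1 / 2) ⊆ S ∧
        (ball (pt 0 (1 / 2)) (1 / 2) ⊆ S ∨ ball (pt (1 / 2) 1) (1 / 2) ⊆ S)) := by
    intro p h
    obtain ⟨S, hS, hpS⟩ := mem_sUnion.1 (hc ▸ mem_univ p)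
    obtain ⟨s, rfl, hs, f, rfl⟩ := hF S hS
    refine ⟨_, hS, hpS, room (e := e) hb h1 hs (hp hS hT fun e => ?_) hpS⟩
    have := inT (e ▸ hpS)
    rcases h with ⟨a1, a2, a3, a4⟩ | ⟨a1, a2, a3, a4⟩ <;>
      rcases this with h | h | h | ⟨h, h'⟩ | h <;> linarith
  have hb' : (1 : ℝ) ≤ b := by exact_mod_cast hb
  have pA : pt (-2) (1 / 2) ∈ obox (-5) (-3 / 4) (1 - b) 1 := by
    simp only [obox, mem_ofPred_eq, pt0, pt1]; refine ⟨?_, ?_, ?_, ?_⟩ <;> linarith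
  have pB : pt 2 (1 / 2) ∈ obox (7 / 4) 6 (1 - b) 1 := by
    simp only [obox, mem_ofPred_eq, pt0, pt1]; refine ⟨?_, ?_, ?_, ?_⟩ <;> linarith
  obtain ⟨A, hA, -, a, -⟩ := key _ (Or.inl pA)
  obtain ⟨B, hB, -, -, a'⟩ := key _ (Or.inr pB)
  obtain ⟨a1, a2⟩ := a pA
  obtain ⟨b1, b2⟩ := a' pB
  obtain rfl : A = B := by
    rcases a2 with a2 | a2
    · exact un _ hA _ hB _ a2 b1
    rcases b2 with b2 | b2
    · exact un _ hA _ hB _ a1 b2
    · exact un _ hA _ hB _ a2 b2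
  have sub : obox (-5) (-3 / 4) (1 - b) 1 ∪ obox (7 / 4) 6 (1 - b) 1 ⊆ A := by
    intro p h
    obtain ⟨S, hS, hpS, c1, c2⟩ := key p h
    rcases h with h | h
    · rwa [un _ hA _ hS _ a1 (c1 h).1]
    · rwa [un _ hA _ hS _ b1 (c2 h).1]
  obtain ⟨s, rfl, -, f, rfl⟩ := hF A hA
  have h4 := (measure_mono (μ := volume) sub).trans ((vol_img f _).le.trans (vol_le s))
  rw [measure_union (disjoint_left.2 fun p h h' => by linarith [h.2.1, h'.1])
    (open_o _ _ _ _).measurableSet, vol_o, vol_o, ← ENNReal.ofReal_mul (by norm_num),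
    ← ENNReal.ofReal_mul (by norm_num), ← ENNReal.ofReal_add (by nlinarith) (by nlinarith),
    ← ENNReal.ofReal_natCast, ENNReal.ofReal_le_ofReal_iff (by positivity)] at h4
  have : (2 * s.card : ℝ) < 17 * b := by exact_mod_cast h2
  linarith

lemma main {n : ℕ} (hn : 39 ≤ n) : ∃ t, IsOmino n t ∧ ∀ F : Set (Set E), ⋃₀ F = univ →
    (F.Pairwise fun A B => Disjoint (interior A) (interior B)) →
    (∀ A ∈ F, ∃ s : Finset (ℤ × ℤ), s.card = n ∧ Conn (s : Set (ℤ × ℤ)) ∧ Congr (reg s) A) →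
    ∀ A ∈ F, ¬ Congr (reg t) A := by
  obtain ⟨b, hb⟩ : ∃ b, b = 2 * n / 17 + 1 := ⟨_, rfl⟩
  obtain ⟨e, he⟩ : ∃ e, n = 24 + 3 * b + e := ⟨n - (24 + 3 * b), by
    rcases (show n = 39 ∨ n = 40 ∨ 41 ≤ n by omega) with rfl | rfl | h <;> omega⟩
  refine ⟨T b e, he ▸ omT (by omega), ?_⟩
  rintro F hc hp hF _ hA ⟨g, rfl⟩
  refine core (e := e) (b := b) (n := n) (by omega) (by omega) (by omega)
    (F := (g.symm '' ·) '' F) ?_ ?_ ?_ ⟨_, hA, by simp [image_image]⟩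
  · refine eq_univ_of_forall fun p => ?_
    obtain ⟨S, hS, h⟩ := mem_sUnion.1 (hc ▸ mem_univ (g p))
    exact ⟨_, ⟨S, hS, rfl⟩, g p, h, by simp⟩
  · rintro _ ⟨A, hA, rfl⟩ _ ⟨B, hB, rfl⟩ h
    have := hp hA hB fun e => h (by rw [e])
    have e : ∀ X, interior (g.symm '' X) = g.symm '' interior X :=
      fun X => (g.symm.toHomeomorph.image_interior X).symm
    simp only [e]
    exact (disjoint_image_iff g.symm.injective).2 this
  · rintro _ ⟨A, hA, rfl⟩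
    obtain ⟨s, h1, h2, f, rfl⟩ := hF A hA
    exact ⟨s, h1, h2, f.trans g.symm, by simp [image_image]⟩

end Pool.Agent.H.MP_60dc17_co
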